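import Mathlib
import Pool.Agent.Q260.MG.Basic

/-! The magneto-spectral height of a suspension can be smaller than the height plus one, for a
connected graph. -/

open Finset Pool.Agent.Q260.MG

namespace Pool.Agent.Results.MP_efe8c5_co.SuspensionFails

/-- The suspension of `G`: a new vertex `none` joined to all vertices `some x`. -/
def suspension {V : Type*} (G : SimpleGraph V) : SimpleGraph (Option V) where
  Adj x y := match x, y with
    | some a, some b => G.Adj a b
    | some _, none => True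
    | none, some _ => True
    | none, none => False
  symm := ⟨by
    rintro (_ | a) (_ | b) h
    · exact h
    · trivial
    · trivial
    · exact SimpleGraph.Adj.symm (G := G) h⟩
  loopless := ⟨by
    rintro (_ | a) h
    · exact h
    · exact G.irrefl h⟩

/-- The complete graph on `0,…,4` with a pendant vertex `5` attached to `0`. -/
def kp : SimpleGraph (Fin 6) where
  Adj x y := x ≠ y ∧ ((x ≠ 5 ∧ y ≠ 5) ∨ (x = 5 ∧ y = 0) ∨ (x = 0 ∧ y = 5))
  symm := ⟨by decide⟩
  loopless := ⟨by decide⟩

instance : DecidableRel kp.Adj := fun x y =>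
  inferInstanceAs (Decidable (x ≠ y ∧ ((x ≠ 5 ∧ y ≠ 5) ∨ (x = 5 ∧ y = 0) ∨ (x = 0 ∧ y = 5))))

lemma kp_conn : kp.Connected := by
  have key : ∀ x : Fin 6, kp.Reachable x 0 := by
    intro x
    by_cases hx : x = 0
    · rw [hx]
    · apply SimpleGraph.Adj.reachable
      revert hx
      revert x
      decide
  have : Nonempty (Fin 6) := ⟨0⟩
  exact SimpleGraph.Connected.mk fun x y => (key x).trans (key y).symm

lemma lower (f : Fin 6 → ℂ) :
    (0.69 : ℝ) * ∑ x, ‖f x‖ ^ 2 ≤ energy kp (fun _ _ => -1) f := by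
  have h1 : energy kp (fun _ _ => -1) f =
      (1 / 2) * ∑ x, ∑ y, if decide (kp.Adj x y) = true then ‖f x + f y‖ ^ 2 else 0 := by
    unfold energy
    congr 1
    refine Finset.sum_congr rfl fun x _ => Finset.sum_congr rfl fun y _ => ?_
    simp only [decide_eq_true_eq]
    congr 1
    ring_nf
  have d : ∀ x y : Fin 6, decide (kp.Adj x y) = (!decide (x = y) &&
      ((!decide (x = 5) && !decide (y = 5)) || (decide (x = 5) && decide (y = 0)) ||
        (decide (x = 0) && decide (y = 5)))) := by decide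
  rw [h1]
  simp only [d, Fin.sum_univ_six]
  simp only [← Complex.normSq_eq_norm_sq, Complex.normSq_apply, Complex.add_re, Complex.add_im]
  simp only [Fin.isValue, decide_true, decide_false, Bool.not_true, Bool.not_false, Bool.and_true,
    Bool.true_and, Bool.false_and, Bool.and_false, Bool.or_false, Bool.false_or, Bool.or_true,
    Bool.true_or, Fin.reduceEq, if_true, Bool.false_eq_true, if_false]
  nlinarith [sq_nonneg ((f 0).re + (f 1).re + (f 2).re + (f 3).re + (f 4).re),
    sq_nonneg ((f 0).im + (f 1).im + (f 2).im + (f 3).im + (f 4).im),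
    sq_nonneg (0.31 * (f 5).re + (f 0).re), sq_nonneg (0.31 * (f 5).im + (f 0).im),
    sq_nonneg (f 0).re, sq_nonneg (f 1).re, sq_nonneg (f 2).re, sq_nonneg (f 3).re,
    sq_nonneg (f 4).re, sq_nonneg (f 0).im, sq_nonneg (f 1).im, sq_nonneg (f 2).im,
    sq_nonneg (f 3).im, sq_nonneg (f 4).im]

/-- the test function on the suspension -/
noncomputable def tf (σ : Option (Fin 6) → Option (Fin 6) → ℂ) : Option (Fin 6) → ℂ
  | none => (1 / 7) * σ none (some 5)
  | some a => if a = 5 then 1 else if a = 0 then (1 / 7) * σ (some 0) (some 5) else 0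

lemma upper {σ : Option (Fin 6) → Option (Fin 6) → ℂ} (hσ : IsPotential (suspension kp) σ) :
    lam1 (suspension kp) σ ≤ 28 / 17 := by
  have hR := lam1_mul_le hσ (tf σ)
  have an : ∀ a, (suspension kp).Adj none (some a) := fun _ => trivial
  have na : ∀ a, (suspension kp).Adj (some a) none := fun _ => trivial
  have e5 : tf σ (some 5) = 1 := by simp [tf]
  have e0 : tf σ (some 0) = (1 / 7) * σ (some 0) (some 5) := by simp [tf]
  have e1 : tf σ (some 1) = 0 := by simp [tf]
  have e2 : tf σ (some 2) = 0 := by simp [tf]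
  have e3 : tf σ (some 3) = 0 := by simp [tf]
  have e4 : tf σ (some 4) = 0 := by simp [tf]
  have en : tf σ none = (1 / 7) * σ none (some 5) := rfl
  have adj05 : (suspension kp).Adj (some 0) (some 5) := by
    change kp.Adj 0 5; decide
  have un : ∀ x y, (suspension kp).Adj x y → ‖σ x y‖ = 1 := fun x y h => (hσ x y h).1
  have inv : ∀ x y, (suspension kp).Adj x y → σ y x * σ x y = 1 := by
    intro x y h
    obtain ⟨h1, h2⟩ := hσ x y h
    rw [h2]
    apply inv_mul_cancel₀
    intro h0
    rw [h0] at h1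
    simp at h1
  have n0 : ‖tf σ (some 0)‖ = 1 / 7 := by
    rw [e0, norm_mul, un _ _ adj05]; norm_num
  have nn : ‖tf σ none‖ = 1 / 7 := by
    rw [en, norm_mul, un _ _ (an 5)]; norm_num
  have hnorm : ∑ x, ‖tf σ x‖ ^ 2 = 51 / 49 := by
    rw [Fintype.sum_option, Fin.sum_univ_six, n0, nn, e1, e2, e3, e4, e5]
    norm_num
  -- the terms
  have z : ∀ x y, (suspension kp).Adj x y → tf σ y = 0 →
      ‖tf σ x - σ x y * tf σ y‖ ^ 2 = ‖tf σ x‖ ^ 2 := by
    intro x y _ h
    rw [h]; simp
  have z' : ∀ x y, (suspension kp).Adj x y → tf σ x = 0 →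
      ‖tf σ x - σ x y * tf σ y‖ ^ 2 = ‖tf σ y‖ ^ 2 := by
    intro x y hxy h
    rw [h, zero_sub, norm_neg, norm_mul, un x y hxy, one_mul]
  have t1 : ‖tf σ none - σ none (some 5) * tf σ (some 5)‖ ^ 2 = 36 / 49 := by
    rw [e5, en, show (1 / 7 : ℂ) * σ none (some 5) - σ none (some 5) * 1 =
      (-6 / 7) * σ none (some 5) by ring, norm_mul, un _ _ (an 5)]
    norm_num
  have t2 : ‖tf σ (some 5) - σ (some 5) none * tf σ none‖ ^ 2 = 36 / 49 := by
    rw [e5, en, show (1 : ℂ) - σ (some 5) none * (1 / 7 * σ none (some 5)) =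
      1 - (1 / 7) * (σ (some 5) none * σ none (some 5)) by ring, inv _ _ (an 5)]
    norm_num
  have t3 : ‖tf σ (some 0) - σ (some 0) (some 5) * tf σ (some 5)‖ ^ 2 = 36 / 49 := by
    rw [e5, e0, show (1 / 7 : ℂ) * σ (some 0) (some 5) - σ (some 0) (some 5) * 1 =
      (-6 / 7) * σ (some 0) (some 5) by ring, norm_mul, un _ _ adj05]
    norm_num
  have t4 : ‖tf σ (some 5) - σ (some 5) (some 0) * tf σ (some 0)‖ ^ 2 = 36 / 49 := by
    rw [e5, e0, show (1 : ℂ) - σ (some 5) (some 0) * (1 / 7 * σ (some 0) (some 5)) =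
      1 - (1 / 7) * (σ (some 5) (some 0) * σ (some 0) (some 5)) by ring, inv _ _ adj05]
    norm_num
  have t5 : ‖tf σ none - σ none (some 0) * tf σ (some 0)‖ ^ 2 ≤ 4 / 49 := by
    have : ‖tf σ none - σ none (some 0) * tf σ (some 0)‖ ≤ 2 / 7 := by
      refine (norm_sub_le _ _).trans ?_
      rw [norm_mul, un _ _ (an 0), nn, n0]; norm_num
    calc _ ≤ (2 / 7 : ℝ) ^ 2 := by gcongr
      _ = _ := by norm_num
  have t6 : ‖tf σ (some 0) - σ (some 0) none * tf σ none‖ ^ 2 ≤ 4 / 49 := by
    have : ‖tf σ (some 0) - σ (some 0) none * tf σ none‖ ≤ 2 / 7 := by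
      refine (norm_sub_le _ _).trans ?_
      rw [norm_mul, un _ _ (na 0), nn, n0]; norm_num
    calc _ ≤ (2 / 7 : ℝ) ^ 2 := by gcongr
      _ = _ := by norm_num
  have hE : energy (suspension kp) σ (tf σ) ≤ 12 / 7 := by
    have k : ∀ a b : Fin 6, (suspension kp).Adj (some a) (some b) ↔ decide (kp.Adj a b) = true := by
      intro a b
      rw [decide_eq_true_eq]
      exact Iff.rfl
    have d : ∀ x y : Fin 6, decide (kp.Adj x y) = (!decide (x = y) &&
        ((!decide (x = 5) && !decide (y = 5)) || (decide (x = 5) && decide (y = 0)) ||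
          (decide (x = 0) && decide (y = 5)))) := by decide
    have nnn : ¬ (suspension kp).Adj none none := fun h => h
    unfold energy
    rw [Fintype.sum_option, Fin.sum_univ_six]
    simp only [Fintype.sum_option, Fin.sum_univ_six, an, na, nnn, k, d]
    simp only [Fin.isValue, decide_true, decide_false, Bool.not_true, Bool.not_false, Bool.and_true,
      Bool.true_and, Bool.false_and, Bool.and_false, Bool.or_false, Bool.false_or, Bool.or_true,
      Bool.true_or, Fin.reduceEq, if_true, Bool.false_eq_true, if_false]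
    have a0 : ∀ a : Fin 6, (suspension kp).Adj (some 0) (some a) ↔ 0 ≠ a := by
      intro a
      change kp.Adj 0 a ↔ _
      revert a; decide
    have kk : ∀ a b : Fin 6, kp.Adj a b → (suspension kp).Adj (some a) (some b) := fun _ _ h => h
    rw [z _ _ (an 1) e1, z _ _ (an 2) e2, z _ _ (an 3) e3, z _ _ (an 4) e4,
      z' _ _ (na 1) e1, z' _ _ (na 2) e2, z' _ _ (na 3) e3, z' _ _ (na 4) e4,
      z _ _ (kk 0 1 (by decide)) e1, z _ _ (kk 0 2 (by decide)) e2,
      z _ _ (kk 0 3 (by decide)) e3, z _ _ (kk 0 4 (by decide)) e4,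
      z' _ _ (kk 1 0 (by decide)) e1, z' _ _ (kk 2 0 (by decide)) e2,
      z' _ _ (kk 3 0 (by decide)) e3, z' _ _ (kk 4 0 (by decide)) e4, t1, t2, t3, t4]
    simp only [e1, e2, e3, e4, n0, nn]
    simp only [mul_zero, sub_zero, norm_zero]
    linarith
  rw [hnorm] at hR
  linarith

/-- There is a connected finite graph `G` with more than one vertex (hence without isolated
vertices) such that `ν(G̃) < ν(G) + 1`. -/
theorem result : ∃ (V : Type) (_ : Fintype V) (G : SimpleGraph V), G.Connected ∧
    (∀ x, ∃ y, G.Adj x y) ∧ nu (suspension G) < nu G + 1 := by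
  refine ⟨Fin 6, inferInstance, kp, kp_conn, by decide, ?_⟩
  have h1 : (0.69 : ℝ) ≤ nu kp :=
    (le_lam1 isPotential_neg_one lower).trans (lam1_le_nu isPotential_neg_one)
  have h2 : nu (suspension kp) ≤ 28 / 17 := nu_le fun σ hσ => upper hσ
  have h3 : (28 / 17 : ℝ) < 0.69 + 1 := by norm_num
  linarith

end Pool.Agent.Results.MP_efe8c5_co.SuspensionFails
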